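import Pool.Agent.Y224.AZ.Stm

/-!
# AZ-ODD: there are no forms in an odd number of variables (helper26)
-/

set_option autoImplicit false

namespace Pool.Agent.Y26.AZ

open Module Pool.Agent.H204R3.SP Pool.Agent.Y224.AZ

noncomputable section

section

variable {K X : Type} [Field K] [AddCommGroup X] [Module K X] {k : ℕ}

/-- the forms in `k` variables -/
abbrev Fm (K X : Type) [Field K] [AddCommGroup X] [Module K X] (k : ℕ) : Type :=
  MultilinearMap K (fun _ : Fin k => X) K

/-- the operator `a` in the variable `i` -/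
def cL (i : Fin k) (a : End K X) : End K (Fm K X k) :=
  MultilinearMap.compLinearMapₗ (fun j => if j = i then a else LinearMap.id)

theorem cL_apply (i : Fin k) (a : End K X) (φ : Fm K X k) (v : Fin k → X) :
    cL i a φ v = φ (Function.update v i (a (v i))) := by
  unfold cL
  rw [MultilinearMap.compLinearMapₗ_apply, MultilinearMap.compLinearMap_apply]
  congr 1
  funext j
  by_cases h : j = i
  · subst h
    rw [if_pos rfl, Function.update_self]
  · rw [if_neg h, Function.update_of_ne h]
    rfl

theorem cL_mul (i : Fin k) (a b : End K X) : (cL i a : End K (Fm K X k)) * cL i b = cL i (b * a) := by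
  refine LinearMap.ext fun φ => MultilinearMap.ext fun v => ?_
  rw [Module.End.mul_apply, cL_apply, cL_apply, cL_apply, Function.update_self,
    Function.update_idem]
  rfl

theorem cL_comm {i j : Fin k} (h : i ≠ j) (a b : End K X) :
    (cL i a : End K (Fm K X k)) * cL j b = cL j b * cL i a := by
  refine LinearMap.ext fun φ => MultilinearMap.ext fun v => ?_
  rw [Module.End.mul_apply, Module.End.mul_apply, cL_apply, cL_apply, cL_apply, cL_apply,
    Function.update_of_ne h.symm, Function.update_of_ne h, Function.update_comm h]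

/-- the derivation -/
def D (k : ℕ) (a : End K X) : End K (Fm K X k) := ∑ i, cL i a

theorem D_apply (a : End K X) (φ : Fm K X k) (v : Fin k → X) :
    D k a φ v = ∑ i, φ (Function.update v i (a (v i))) := by
  unfold D
  rw [LinearMap.sum_apply, sum_apply]
  exact Finset.sum_congr rfl fun i _ => cL_apply i a φ v

theorem D_sub (a b : End K X) (φ : Fm K X k) : D k (a - b) φ = D k a φ - D k b φ := by
  refine MultilinearMap.ext fun v => ?_
  rw [sub_apply, D_apply, D_apply, D_apply, ← Finset.sum_sub_distrib]
  refine Finset.sum_congr rfl fun i _ => ?_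
  rw [LinearMap.sub_apply, MultilinearMap.map_update_sub]

theorem D_smul' (c : K) (a : End K X) (φ : Fm K X k) : D k (c • a) φ = c • D k a φ := by
  refine MultilinearMap.ext fun v => ?_
  rw [smul_apply, D_apply, D_apply, Finset.smul_sum]
  refine Finset.sum_congr rfl fun i _ => ?_
  rw [LinearMap.smul_apply, MultilinearMap.map_update_smul]

theorem D_neg (a : End K X) (φ : Fm K X k) : D k (-a) φ = -D k a φ := by
  refine MultilinearMap.ext fun v => ?_
  have h1 : (-D k a φ) v = -(D k a φ v) := rfl
  rw [h1, D_apply, D_apply, ← Finset.sum_neg_distrib]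
  refine Finset.sum_congr rfl fun i _ => ?_
  rw [LinearMap.neg_apply, MultilinearMap.map_update_neg]

theorem D_lie (a b : End K X) (φ : Fm K X k) :
    D k a (D k b φ) - D k b (D k a φ) = D k (b * a - a * b) φ := by
  rw [D_sub]
  refine MultilinearMap.ext fun v => ?_
  have h1 : ∀ a b : End K X, D k a (D k b φ) v = ∑ i, ∑ j, cL i a (cL j b φ) v := by
    intro a b
    rw [D_apply]
    refine Finset.sum_congr rfl fun i _ => ?_
    rw [D_apply]
    refine Finset.sum_congr rfl fun j _ => ?_
    rw [cL_apply, cL_apply]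
  have h2 : ∀ a : End K X, D k a φ v = ∑ i, cL i a φ v := by
    intro a
    rw [D_apply]
    exact Finset.sum_congr rfl fun i _ => (cL_apply i a φ v).symm
  rw [sub_apply, sub_apply, h1, h1, h2, h2,
    Finset.sum_comm (f := fun i j => cL i b (cL j a φ) v),
    ← Finset.sum_sub_distrib, ← Finset.sum_sub_distrib]
  refine Finset.sum_congr rfl fun i _ => ?_
  rw [← Finset.sum_sub_distrib, Finset.sum_eq_single i]
  · have e1 : cL i a (cL i b φ) = cL i (b * a) φ := LinearMap.congr_fun (cL_mul i a b) φ
    have e2 : cL i b (cL i a φ) = cL i (a * b) φ := LinearMap.congr_fun (cL_mul i b a) φ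
    rw [e1, e2]
  · intro j _ hj
    have e1 : cL i a (cL j b φ) = cL j b (cL i a φ) := LinearMap.congr_fun (cL_comm hj.symm a b) φ
    rw [e1, sub_self]
  · intro h
    exact absurd (Finset.mem_univ _) h

theorem D_kills {a : End K X} {φ : Fm K X k} (h : Kills a φ) : D k a φ = 0 := by
  refine MultilinearMap.ext fun v => ?_
  rw [D_apply]
  exact h v

variable [CharZero K]

/-- no forms of weight zero -/
theorem odd_zero {x : End K X} (hx : x * x = (1 / 4 : K) • 1) (hk : Odd k) {ψ : Fm K X k}
    (h : D k x ψ = 0) : ψ = 0 := by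
  have hxx : ∀ v, x (x v) = (1 / 4 : K) • v := fun v => by
    have := LinearMap.congr_fun hx v
    exact this
  refine MultilinearMap.ext fun v => ?_
  have hv : v = (fun i => (1 / 2 : K) • v i + x (v i)) + fun i => (1 / 2 : K) • v i - x (v i) := by
    funext i
    rw [Pi.add_apply]
    module
  rw [hv, MultilinearMap.map_add_univ]
  refine Finset.sum_eq_zero fun s _ => ?_
  set w : Fin k → X := s.piecewise (fun i => (1 / 2 : K) • v i + x (v i))
    (fun i => (1 / 2 : K) • v i - x (v i)) with hw
  have h1 : ∀ i, x (w i) = (if i ∈ s then (1 / 2 : K) else -(1 / 2)) • w i := by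
    intro i
    by_cases hi : i ∈ s
    · rw [if_pos hi, hw, Finset.piecewise_eq_of_mem _ _ _ hi, map_add, map_smul, hxx]
      module
    · rw [if_neg hi, hw, Finset.piecewise_eq_of_notMem _ _ _ hi, map_sub, map_smul, hxx]
      module
  have h2 := congrArg (fun φ : Fm K X k => φ w) h
  simp only [D_apply, h1, MultilinearMap.map_update_smul, Function.update_eq_self,
    zero_apply] at h2
  rw [← Finset.sum_smul] at h2
  rcases smul_eq_zero.1 h2 with h3 | h3
  · exfalso
    have h4 : ∑ i : Fin k, (if i ∈ s then (1 / 2 : K) else -(1 / 2)) =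
        ((2 * (s.card : ℤ) - k : ℤ) : K) / 2 := by
      have h5 : ∀ i : Fin k, (if i ∈ s then (1 / 2 : K) else -(1 / 2)) =
          (if i ∈ s then (1 : K) else 0) - 1 / 2 := by
        intro i
        split_ifs <;> ring
      rw [Finset.sum_congr rfl fun i _ => h5 i, Finset.sum_sub_distrib, Finset.sum_boole,
        Finset.sum_const, Finset.card_univ, Fintype.card_fin, nsmul_eq_mul,
        Finset.filter_univ_mem]
      push_cast
      ring
    rw [h4] at h3
    have h5 : ((2 * (s.card : ℤ) - k : ℤ) : K) = 0 := by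
      rcases div_eq_zero_iff.1 h3 with h | h
      · exact h
      · exact absurd h two_ne_zero
    have h6 : (2 * (s.card : ℤ) - k : ℤ) = 0 := by exact_mod_cast h5
    obtain ⟨c, hc⟩ := hk
    omega
  · exact h3

end

/-- highest weights -/
theorem sl2_nat {K M : Type} [Field K] [CharZero K] [AddCommGroup M] [Module K M]
    [FiniteDimensional K M] (H E F : End K M) (hH : H ≠ 0) (h1 : ∀ m, E (F m) - F (E m) = H m)
    (h2 : ∀ m, H (E m) - E (H m) = (2 : K) • E m) (h3 : ∀ m, H (F m) - F (H m) = -((2 : K) • F m))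
    {m : M} (hm : m ≠ 0) {μ : K} (hl : H m = μ • m) (he : E m = 0) : ∃ n : ℕ, μ = n := by
  let _ : LieRing (End K M) := LieRing.ofAssociativeRing
  have t : IsSl2Triple H E F := by
    refine ⟨hH, ?_, ?_, ?_⟩
    · exact LinearMap.ext h1
    · refine LinearMap.ext fun m => ?_
      have h4 : (2 • E : End K M) m = (2 : K) • E m := by
        rw [two_smul, two_smul]; rfl
      rw [h4]
      exact h2 m
    · refine LinearMap.ext fun m => ?_
      have h4 : (-(2 • F) : End K M) m = -((2 : K) • F m) := by
        rw [two_smul, two_smul]; rfl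
      rw [h4]
      exact h3 m
  have P : t.HasPrimitiveVectorWith m μ := ⟨hm, hl, he⟩
  exact P.exists_nat

/-- eigenvectors -/
theorem exists_eig {K M : Type} [Field K] [IsAlgClosed K] [AddCommGroup M] [Module K M]
    [FiniteDimensional K M] (T : End K M) (S : Submodule K M) (hS : ∀ m ∈ S, T m ∈ S) {m : M}
    (hm : m ∈ S) (hm0 : m ≠ 0) : ∃ ψ ∈ S, ψ ≠ 0 ∧ ∃ l : K, T ψ = l • ψ := by
  have hnt : Nontrivial S := ⟨⟨⟨m, hm⟩, 0, fun h => hm0 (congrArg Subtype.val h)⟩⟩
  obtain ⟨l, hl⟩ := Module.End.exists_eigenvalue (T.restrict hS)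
  obtain ⟨ψ, hψ⟩ := hl.exists_hasEigenvector
  exact ⟨ψ.1, ψ.2, fun h => hψ.2 (Subtype.ext h), l, congrArg Subtype.val hψ.apply_eq_smul⟩

theorem weight {K X : Type} [Field K] [CharZero K] [AddCommGroup X] [Module K X]
    [FiniteDimensional K X] {k : ℕ} {x e g : End K X} (h1 : x * e - e * x = e)
    (h2 : x * g - g * x = -g) (h3 : e * g - g * e = (2 : K) • x) {ψ : Fm K X k} (hψ : ψ ≠ 0)
    (hD : D k x ψ ≠ 0) {l : K} (he : D k e ψ = 0) (hl : D k x ψ = l • ψ) :
    ∃ n : ℕ, -(2 * l) = n := by
  have h5 : e * x - x * e = -e := by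
    have : e * x - x * e = -(x * e - e * x) := by abel
    rw [this, h1]
  have h6 : g * x - x * g = g := by
    have : g * x - x * g = -(x * g - g * x) := by abel
    rw [this, h2, neg_neg]
  refine sl2_nat (M := MultilinearMap K (fun _ : Fin k => X) K) (-((2 : K) • D k x)) (D k e)
    (D k g) ?_ ?_ ?_ ?_ hψ ?_ he
  · intro h0
    have h4 := LinearMap.congr_fun h0 ψ
    have h7 : -((2 : K) • D k x ψ) = 0 := h4
    rw [neg_eq_zero] at h7
    exact hD ((smul_eq_zero.1 h7).resolve_left two_ne_zero)
  · intro φ
    have h4 := D_lie (k := k) e g φ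
    have h7 : g * e - e * g = -((2 : K) • x) := by rw [← h3]; abel
    rw [h7, D_neg, D_smul'] at h4
    exact h4
  · intro φ
    have h4 := D_lie (k := k) x e φ
    rw [h5, D_neg] at h4
    change -((2 : K) • D k x (D k e φ)) - D k e (-((2 : K) • D k x φ)) = (2 : K) • D k e φ
    rw [map_neg, map_smul]
    have h7 : D k x (D k e φ) = D k e (D k x φ) - D k e φ := by
      rw [sub_eq_iff_eq_add] at h4
      rw [h4]; abel
    rw [h7, smul_sub]
    abel
  · intro φ
    have h4 := D_lie (k := k) x g φ
    rw [h6] at h4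
    change -((2 : K) • D k x (D k g φ)) - D k g (-((2 : K) • D k x φ)) = -((2 : K) • D k g φ)
    rw [map_neg, map_smul]
    have h7 : D k x (D k g φ) = D k g (D k x φ) + D k g φ := by
      rw [sub_eq_iff_eq_add] at h4
      rw [h4]; abel
    rw [h7, smul_add]
    abel
  · change -((2 : K) • D k x ψ) = _
    rw [hl, smul_smul, neg_smul]

/-- the third operator of a triple -/
theorem third {K X : Type} [Field K] [CharZero K] [AddCommGroup X] [Module K X]
    [FiniteDimensional K X] (x e f : End K X) (hx : x * x = (1 / 4 : K) • 1)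
    (h1 : x * e - e * x = e) (h2 : x * f - f * x = -f)
    (h3 : ∀ v, x v = -(1 / 2 : K) • v → e v = 0 → v = 0)
    (h4 : ∀ v, x v = (1 / 2 : K) • v → f v = 0 → v = 0) :
    ∃ g : End K X, x * g - g * x = -g ∧ e * g - g * e = (2 : K) • x := by
  have hxx : ∀ v, x (x v) = (1 / 4 : K) • v := fun v => LinearMap.congr_fun hx v
  have e1 : ∀ v, x (e v) - e (x v) = e v := fun v => LinearMap.congr_fun h1 v
  have f1 : ∀ v, x (f v) - f (x v) = -f v := fun v => LinearMap.congr_fun h2 v
  have e2 : ∀ v, x (e v) = (1 / 2 : K) • e v := by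
    intro v
    have a := congrArg x (e1 v)
    rw [map_sub, hxx] at a
    have b := e1 (x v)
    rw [hxx, map_smul] at b
    have c := e1 v
    linear_combination (norm := module) (1 / 2 : K) • c - (1 / 2 : K) • a - (1 / 2 : K) • b
  have f2 : ∀ v, x (f v) = -(1 / 2 : K) • f v := by
    intro v
    have a := congrArg x (f1 v)
    rw [map_sub, hxx, map_neg] at a
    have b := f1 (x v)
    rw [hxx, map_smul] at b
    have c := f1 v
    linear_combination (norm := module) (1 / 2 : K) • c + (1 / 2 : K) • a + (1 / 2 : K) • b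
  have e3 : ∀ v, e (x v) = -(1 / 2 : K) • e v := by
    intro v
    linear_combination (norm := module) -(e1 v) + e2 v
  have f3 : ∀ v, f (x v) = (1 / 2 : K) • f v := by
    intro v
    linear_combination (norm := module) -(f1 v) + f2 v
  -- the sum is injective
  have hinj : Function.Injective (e + f) := by
    rw [← LinearMap.ker_eq_bot, LinearMap.ker_eq_bot']
    intro v hv
    have a1 : e v + f v = 0 := hv
    have a2 := congrArg x a1
    rw [map_add, e2, f2, map_zero] at a2
    have a3 : e v - f v = 0 := by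
      have : e v - f v = (2 : K) • ((1 / 2 : K) • e v + -(1 / 2 : K) • f v) := by module
      rw [this, a2, smul_zero]
    have a4 : e v = 0 := by
      have : e v = (1 / 2 : K) • ((e v + f v) + (e v - f v)) := by module
      rw [this, a1, a3, add_zero, smul_zero]
    have a5 : f v = 0 := by
      rw [a4, zero_add] at a1
      exact a1
    have b1 : (1 / 2 : K) • v - x v = 0 := by
      apply h3
      · rw [map_sub, map_smul, hxx]; module
      · rw [map_sub, map_smul, e3, a4]; simp
    have b2 : (1 / 2 : K) • v + x v = 0 := by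
      apply h4
      · rw [map_add, map_smul, hxx]; module
      · rw [map_add, map_smul, f3, a5]; simp
    have : v = ((1 / 2 : K) • v - x v) + ((1 / 2 : K) • v + x v) := by module
    rw [this, b1, b2, add_zero]
  let N : X ≃ₗ[K] X := LinearEquiv.ofInjectiveEndo (e + f) hinj
  have hN : ∀ v, N v = e v + f v := fun v => rfl
  have n1 : ∀ v, e (N.symm v) + f (N.symm v) = v := fun v => by
    rw [← hN, LinearEquiv.apply_symm_apply]
  have n2 : ∀ v, e (N.symm v) = (1 / 2 : K) • v + x v := by
    intro v
    have a := congrArg x (n1 v)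
    rw [map_add, e2, f2] at a
    linear_combination (norm := module) (1 / 2 : K) • n1 v + a
  have n3 : ∀ v, x (N.symm v) = -N.symm (x v) := by
    intro v
    apply N.injective
    rw [map_neg, LinearEquiv.apply_symm_apply, hN, e3, f3]
    have a := congrArg x (n1 v)
    rw [map_add, e2, f2] at a
    linear_combination (norm := module) -a
  have n4 : ∀ v, N.symm (e v) = (1 / 2 : K) • v - x v := by
    intro v
    rw [LinearEquiv.symm_apply_eq, hN, map_sub, map_sub, map_smul, map_smul, e3, f3]
    module
  refine ⟨N.symm.toLinearMap * ((1 / 2 : K) • 1 + x), ?_, ?_⟩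
  · refine LinearMap.ext fun v => ?_
    change x (N.symm ((1 / 2 : K) • v + x v)) - N.symm ((1 / 2 : K) • x v + x (x v)) =
      -N.symm ((1 / 2 : K) • v + x v)
    have a : x ((1 / 2 : K) • v + x v) + ((1 / 2 : K) • x v + x (x v)) =
        (1 / 2 : K) • v + x v := by
      rw [map_add, map_smul, hxx]; module
    have b := (N.symm.map_add _ _).symm.trans (congrArg N.symm a)
    rw [n3, ← b]
    abel
  · refine LinearMap.ext fun v => ?_
    change e (N.symm ((1 / 2 : K) • v + x v)) - N.symm ((1 / 2 : K) • e v + x (e v)) =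
      (2 : K) • x v
    have a : (1 / 2 : K) • e v + x (e v) = e v := by rw [e2]; module
    rw [a, n2, n4, map_add, map_smul, hxx]
    module

theorem t_odd : S_ODD := by
  intro K X _ _ _ _ _ _ x e f hx h1 h2 h3 h4 k φ hk hφe hφf
  by_contra hφ
  obtain ⟨g, hg1, hg2⟩ := third x e f hx h1 h2 h3 h4
  have hx' : (-x) * (-x) = (1 / 4 : K) • 1 := by rw [neg_mul_neg, hx]
  obtain ⟨g', hg1', hg2'⟩ := third (-x) f e hx' (by
      rw [neg_mul, mul_neg]
      have : -(x * f) - -(f * x) = -(x * f - f * x) := by abel
      rw [this, h2, neg_neg])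
    (by
      rw [neg_mul, mul_neg]
      have : -(x * e) - -(e * x) = -(x * e - e * x) := by abel
      rw [this, h1])
    (fun v hv => h4 v (by
      rw [LinearMap.neg_apply, neg_smul, neg_inj] at hv
      exact hv))
    (fun v hv => h3 v (by
      rw [LinearMap.neg_apply] at hv
      rw [neg_smul, ← hv, neg_neg]))
  let S : Submodule K (MultilinearMap K (fun _ : Fin k => X) K) :=
    LinearMap.ker (D k e) ⊓ LinearMap.ker (D k f)
  have hS : ∀ ψ ∈ S, D k x ψ ∈ S := by
    rintro ψ ⟨a, b⟩
    have a' : D k e ψ = 0 := a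
    have b' : D k f ψ = 0 := b
    constructor
    · change D k e (D k x ψ) = 0
      have c := D_lie (k := k) e x ψ
      rw [h1, a', map_zero, sub_zero] at c
      exact c
    · change D k f (D k x ψ) = 0
      have c := D_lie (k := k) f x ψ
      rw [h2, D_neg, b', map_zero, sub_zero, neg_zero] at c
      exact c
  obtain ⟨ψ, ⟨hψe, hψf⟩, hψ0, l, hψl⟩ := exists_eig (D k x) S hS
    (show φ ∈ S from ⟨D_kills hφe, D_kills hφf⟩) hφ
  have hψe' : D k e ψ = 0 := hψe
  have hψf' : D k f ψ = 0 := hψf
  have hDx : D k x ψ ≠ 0 := fun h => hψ0 (odd_zero hx hk h)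
  obtain ⟨n, hn⟩ := weight h1 hg1 hg2 hψ0 hDx hψe' hψl
  obtain ⟨n', hn'⟩ := weight (x := -x) (e := f) (l := -l) (by
      rw [neg_mul, mul_neg]
      have : -(x * f) - -(f * x) = -(x * f - f * x) := by abel
      rw [this, h2, neg_neg]) hg1' hg2' hψ0
    (by rw [D_neg]; exact neg_ne_zero.2 hDx) hψf' (by
      rw [D_neg, hψl]
      exact (neg_smul l ψ).symm)
  have h5 : ((n + n' : ℕ) : K) = 0 := by
    push_cast
    rw [← hn, ← hn']; ring
  have h6 : n + n' = 0 := by exact_mod_cast h5
  have h7 : n = 0 := by omega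
  rw [h7, Nat.cast_zero, neg_eq_zero, mul_eq_zero] at hn
  have hl0 : l = 0 := hn.resolve_left two_ne_zero
  rw [hl0, zero_smul] at hψl
  exact hDx hψl

end

end Pool.Agent.Y26.AZ
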